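import Pool.Agent.H914R2.Var
import Pool.Agent.Y143.SimpleDefs
import Pool.Agent.Y143.MonDefs

/-!
# Cohomology of smooth proper varieties over a local field

`K` is a complete discretely valued field of characteristic zero with finite residue field with `q`
elements, `W` is its Weil group; the cohomology groups `H^*(X_{\bar K})` of the smooth proper
varieties `X` over `K` have coefficients in the field `Ω`; Tate twists are suppressed.
-/

open AlgebraicGeometry

universe u v w

namespace Pool.Agent.Y143

open Pool.Agent.H914

section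

variable {Ω : Type w} [Field Ω] {W : Type} {V : Type v} [AddCommGroup V] [Module Ω V]
  {U : Type v} [AddCommGroup U] [Module Ω U]

/-- `f (V^m) ⊆ U^(m + d)` for all `m`. -/
def IsHomogeneous (gr : ℤ → Submodule Ω V) (gr' : ℤ → Submodule Ω U) (d : ℤ)
    (f : V →ₗ[Ω] U) : Prop :=
  ∀ m a, a ∈ gr m → f a ∈ gr' (m + d)

/-- `T' f = c f T`. -/
def Intertwines (c : Ω) (T : Module.End Ω V) (T' : Module.End Ω U) (f : V →ₗ[Ω] U) : Prop :=
  ∀ a, T' (f a) = c • f (T a)

/-- `act` is an action of the group `W`. -/
def IsLinearAction [Group W] (act : W → Module.End Ω V) : Prop :=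
  (∀ a, act 1 a = a) ∧ ∀ g h a, act (g * h) a = act g (act h a)

/-- `α` is an eigenvalue of `T` on the image of the subspace `S` in `M_s / M_(s - 1)`. -/
def IsEigenvalueOn (M : ℤ → Submodule Ω V) (s : ℤ) (S : Submodule Ω V) (T : Module.End Ω V)
    (α : Ω) : Prop :=
  ∃ x ∈ S, x ∈ M s ∧ x ∉ M (s - 1) ∧ T x - α • x ∈ M (s - 1)

/-- The maps `i : V → U` and `r : U → V` make the subspace `S` of `V` a direct summand of `U`. -/
def IsRetract (S : Submodule Ω V) (i : V →ₗ[Ω] U) (r : U →ₗ[Ω] V) : Prop :=
  (∀ v, r v ∈ S) ∧ ∀ a ∈ S, r (i a) = a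

/-- `T` is the operator `B` composed with a unipotent operator `1 + N S` (for example `exp (c N)`),
where `S` commutes with `N`. -/
def IsUnipotentTwist (N B T : Module.End Ω U) : Prop :=
  ∃ S : Module.End Ω U, Intertwines 1 N N S ∧ ∀ v, T v = B (v + N (S v))

/-- Some power `A ^ t`, `t > 0`, corresponds under `i` to `F ^ k (1 + N S)`, where `t d = e k` and `S`
commutes with `N`. -/
def IsPotentially (N F : Module.End Ω U) (e : ℕ) (i : V →ₗ[Ω] U) (A : Module.End Ω V)
    (d : ℤ) : Prop :=
  ∃ t k : ℕ, 0 < t ∧ (t : ℤ) * d = e * k ∧ ∃ T, IsUnipotentTwist N (F ^ k) T ∧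
    Intertwines 1 (A ^ t) T i

end

/-- A graded vector space with operators indexed by `W` and an operator `N` (the cohomology
`H^*(X_{\bar K})` of a variety `X` over `K` with the action of the Weil group and the
monodromy operator). -/
structure GradedRep (Ω : Type w) [Field Ω] (W : Type) where
  /-- the underlying space -/
  V : Type v
  [addCommGroup : AddCommGroup V]
  [module : Module Ω V]
  /-- the part of degree `m` -/
  gr : ℤ → Submodule Ω V
  /-- the action of `W` -/
  act : W → Module.End Ω V
  /-- the monodromy operator -/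
  N : Module.End Ω V

attribute [instance] GradedRep.addCommGroup GradedRep.module

section

variable {Ω : Type w} [Field Ω] {W : Type}

/-- `W` acts by linear maps which respect the degrees and `N` is homogeneous of degree zero;
`N g = q ^ (deg g) g N` for `g` in `W`; there is nothing in negative degrees. -/
structure GradedRep.IsRep [Group W] (R : GradedRep.{v, w} Ω W) (deg : W → ℤ) (q : ℕ) :
    Prop where
  action : IsLinearAction R.act
  act_gr : ∀ g, IsHomogeneous R.gr R.gr 0 (R.act g)
  N_gr : IsHomogeneous R.gr R.gr 0 R.N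
  N_act : ∀ g, Intertwines ((q : Ω) ^ deg g) R.N R.N (R.act g)
  gr_neg : ∀ m, m < 0 → R.gr m = ⊥

/-- The map `f` is equivariant of degree `2 e`, as a map from `R` to the Tate twist `R'(e)`: it
maps the part of degree `m` to the part of degree `m + 2 e`, and commutes with `N` and, up to the
factor `q ^ (e deg g)`, with `g` in `W`. -/
structure IsEquivariant (R R' : GradedRep.{v, w} Ω W) (deg : W → ℤ) (q : ℕ) (e : ℤ)
    (f : R.V →ₗ[Ω] R'.V) : Prop where
  gr : IsHomogeneous R.gr R'.gr (2 * e) f
  act : ∀ g, Intertwines ((q : Ω) ^ (deg g * e)) (R.act g) (R'.act g) f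
  N : Intertwines 1 R.N R'.N f

/-- The part of degree `m` of `R` is a direct summand of the space `U` with operators `F` and `T`
(for a semistable scheme over the ring of integers of a finite extension `K'` of `K` with
residue field with `q ^ e` elements: the cohomology `H^m` of its geometric generic fibre with an
element `F` of the Weil group of `K'` of degree one and the monodromy operator `T`). Up to
a constant (the ramification index) `T` corresponds to `N`, and for every `g` in `W` of degree at
least zero some power `g ^ t`, `t > 0`, corresponds to the product of a power of `F` and of a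
unipotent operator `1 + T S` (for example `exp (c T)`), where `S` commutes with `T`. -/
def GradedRep.IsSummand (R : GradedRep.{v, w} Ω W) (deg : W → ℤ) (q e : ℕ) (m : ℤ)
    {U : Type v} [AddCommGroup U] [Module Ω U] (F T : Module.End Ω U) : Prop :=
  Intertwines ((q ^ e : ℕ) : Ω) T T F ∧ ∃ (i : R.V →ₗ[Ω] U) (r : U →ₗ[Ω] R.V) (c : Ω),
    c ≠ 0 ∧ IsRetract (R.gr m) i r ∧ Intertwines c R.N T i ∧ Intertwines c⁻¹ T R.N r ∧
      ∀ g, 0 ≤ deg g → IsPotentially T F e i (R.act g) (deg g)

end

/-- The data of the cohomology of the smooth proper varieties over `K`. -/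
structure Cohomology (K : Type u) [Field K] (Ω : Type w) [Field Ω] (W : Type) where
  /-- the element `g` of `W` induces the `deg g`-th power of the geometric Frobenius of the residue
  field -/
  deg : W → ℤ
  /-- the cohomology `H^*(X_{\bar K})` -/
  H : SmVar.{u} K → GradedRep.{v, w} Ω W
  /-- the operations on the cohomology of the algebraic cycles of codimension `dim Y + e` on
  `Y × X` -/
  corr : ∀ Y X : SmVar.{u} K, ℤ → Set ((H Y).V →ₗ[Ω] (H X).V)

section

variable {K : Type u} [Field K] {Ω : Type w} [Field Ω] {W : Type}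

/-- The map `∑ f i` from the sum of the `R i` to `R'` has an equivariant generalized inverse `s`,
that is, `(∑ f i) ∘ s ∘ (∑ f i) = ∑ f i`. -/
def HasGeneralizedInverse {t : ℕ} (R : Fin t → GradedRep.{v, w} Ω W) (R' : GradedRep.{v, w} Ω W)
    (deg : W → ℤ) (q : ℕ) (e : Fin t → ℤ) (f : ∀ i, (R i).V →ₗ[Ω] R'.V) : Prop :=
  ∃ s : ∀ i, R'.V →ₗ[Ω] (R i).V, (∀ i, IsEquivariant R' (R i) deg q (-e i) (s i)) ∧
    ∀ i b, ∑ j, f j (s j (f i b)) = f i b

/-- The operations of algebraic cycles are equivariant, they contain the identity; and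
(semisimplicity of the category of motives for motivated cycles, Andre) for finitely many
operations `f i` from `Y i` to `X`, the map `∑ f i` has an equivariant generalized inverse. -/
structure Cohomology.HasCorrespondences (H : Cohomology.{u, v, w} K Ω W) (q : ℕ) : Prop where
  equivariant : ∀ Y X e, ∀ f ∈ H.corr Y X e, IsEquivariant (H.H Y) (H.H X) H.deg q e f
  id : ∀ X, LinearMap.id ∈ H.corr X X 0
  semisimple : ∀ (X : SmVar.{u} K) (t : ℕ) (Y : Fin t → SmVar.{u} K) (e : Fin t → ℤ) f,
    (∀ i, f i ∈ H.corr (Y i) X (e i)) →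
      HasGeneralizedInverse (fun i => H.H (Y i)) (H.H X) H.deg q e f

variable [CharZero Ω]

/-- `H^m(Y)` is a direct summand of the cohomology `H^m` of the geometric generic fibre of the
semistable scheme `D` over the ring of integers of a finite extension of `K` with residue field
with `q ^ e` elements. -/
def Cohomology.IsSummandOf (H : Cohomology.{u, v, w} K Ω W) (q e : ℕ) (Y : SmVar.{u} K) (m : ℕ)
    {Γ : Type} {n : ℕ} (D : SemistableModel.{w, v} Ω Γ n (q ^ e)) : Prop :=
  (H.H Y).IsSummand H.deg q e m (D.actV m D.frob) (D.N m)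

/-- The cohomology of the smooth proper varieties over the local field `K` with residue field with
`q` elements has the known properties: the action of the Weil group, the operations of
algebraic cycles, and (de Jong) for every `Y` there is a projective strictly semistable scheme `D` over
the ring of integers of a finite extension of `K`, of the same dimension as `Y`, such that the
cohomology of `Y` is a direct summand of the cohomology of the geometric generic fibre of `D`. -/
structure Cohomology.IsLocal [Group W] (H : Cohomology.{u, v, w} K Ω W) (q : ℕ) : Prop where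
  deg_mul : ∀ g h, H.deg (g * h) = H.deg g + H.deg h
  rep : ∀ X, (H.H X).IsRep H.deg q
  correspondences : H.HasCorrespondences q
  alterations : ∀ Y : SmVar.{u} K, ∃ (e : ℕ) (Γ : Type)
    (D : Degeneration.{w, v} Ω Γ Y.dim (q ^ e)), 0 < e ∧ Nonempty (DivisorClasses D.toSpecialFibre) ∧
      ∀ m : ℕ, H.IsSummandOf q e Y m D.toSemistableModel

/-- The transcendental classes on the strata of the special fibre of `D` which are relevant
for `H^j` are simple: for all `i ≥ 1` and `w ≥ 2` with `i + w ≤ min (j, 2 n - j)` every character `χ` is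
simple in `E_1^(i, w)` or, if `w = 2`, `χ(frob)` is `q` times a root of unity and the Tate conjecture
for divisors holds for the stratum `Y^(i)`. -/
def Degeneration.HasSimpleClasses {Γ : Type} {n q : ℕ} (D : Degeneration.{w, v} Ω Γ n q)
    (j : ℕ) : Prop :=
  ∃ A : DivisorClasses D.toSpecialFibre, ∀ i w : ℕ, 1 ≤ i → 2 ≤ w →
    (i : ℤ) + w ≤ min (j : ℤ) (2 * n - j) → ∀ χ : Γ → Ω,
      D.SimpleAt i w χ ∨ (w = 2 ∧ IsTateNumber q (χ D.frob) ∧ A.TateConj (i - 1))

/-- The cohomology group `H^j(Y)` is good for the index `s`: either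
`min (j, 2 dim Y - j) ≤ |s| + 2`, or `H^j(Y)` is a direct summand of the cohomology `H^j` of the
geometric generic fibre of a semistable scheme `D` of the same dimension with simple classes. -/
def Cohomology.IsGood (H : Cohomology.{u, v, w} K Ω W) (q : ℕ) (s : ℤ) (Y : SmVar.{u} K)
    (j : ℕ) : Prop :=
  min (j : ℤ) (2 * (Y.dim : ℤ) - j) ≤ |s| + 2 ∨
    ∃ (e : ℕ) (Γ : Type) (D : Degeneration.{w, v} Ω Γ Y.dim (q ^ e)), 0 < e ∧
      D.HasSimpleClasses j ∧ H.IsSummandOf q e Y j D.toSemistableModel

/-- The part of `H^m(X)` which is good for the index `s`: the sum of the images of the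
groups `H^j(Y)` which are good for `s`, under all the correspondences from `Y` to `X` of
degree `e`, `j + 2 e = m`. -/
def Cohomology.goodPart (H : Cohomology.{u, v, w} K Ω W) (q : ℕ) (s : ℤ) (X : SmVar.{u} K)
    (m : ℕ) : Submodule Ω (H.H X).V :=
  sSup {S | ∃ (Y : SmVar.{u} K) (j : ℕ) (e : ℤ), (j : ℤ) + 2 * e = m ∧ H.IsGood q s Y j ∧
    ∃ f ∈ H.corr Y X e, S = ((H.H Y).gr j).map f}

/-- The compositions of an operation of cycles from `X` to `Y` of degree `- c` and of an operation
of cycles from `Y` to `X` of degree `c`. -/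
def Cohomology.through (H : Cohomology.{u, v, w} K Ω W) (X Y : SmVar.{u} K) (c : ℤ) :
    Set (Module.End Ω (H.H X).V) :=
  {h | ∃ f ∈ H.corr X Y (-c), ∃ g ∈ H.corr Y X c, h = g ∘ₗ f}

/-- The diagonal of `X` factors, as far as `H^m(X)` and the index `s` are concerned: the identity of
the cohomology of `X` is a sum of compositions of operations of cycles from `X` to `Y l`,
of degree `- c l`, and from `Y l` to `X`, of degree `c l`, such that `H^j(Y l)` is good for `s`
if `j = m - 2 c l ≥ 0`. (By the theorem of Bloch and Srinivas one can take, over a finite extension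
of `K`, a surface with `c = 0` and a variety of dimension `dim X - 1` with `c = 1`, if the group
`CH_0(X)` over a universal domain is supported on a surface.) -/
def Cohomology.DiagonalFactors (H : Cohomology.{u, v, w} K Ω W) (q : ℕ) (s : ℤ)
    (X : SmVar.{u} K) (m : ℕ) : Prop :=
  ∃ (t : ℕ) (Y : Fin t → SmVar.{u} K) (c : Fin t → ℤ) (h : Fin t → Module.End Ω (H.H X).V),
    (∀ l, h l ∈ H.through X (Y l) (c l) ∧
      ∀ j : ℕ, (j : ℤ) = m - 2 * c l → H.IsGood q s (Y l) j) ∧ 1 = ∑ l, h l

end

end Pool.Agent.Y143
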