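import Pool.Agent.Y143.Gal.Defs
import Pool.Agent.Y143.Mon
import Pool.Agent.Y143.WeilNum
import Pool.Agent.Y143.Extreme

/-!
# Purity of the extreme graded pieces for the parts of given niveau
-/

open AlgebraicGeometry

universe u v w

namespace Pool.Agent.Y143

open Pool.Agent.H914
open Module

section nilp

variable {Ω : Type u} [Field Ω] [CharZero Ω] {Γ : Type} {n q : ℕ}

/-- The monodromy operator of a semistable model is nilpotent. -/
lemma SemistableModel.nilpotent (D : SemistableModel.{u, v} Ω Γ n q) (m : ℕ) :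
    ∃ r : ℕ, (D.N m) ^ r = 0 := by
  have step : ∀ w x, x ∈ D.W m w → D.N m x ∈ D.W m (w - 2) := by
    intro w x hx
    obtain ⟨y, hy⟩ := D.sp_left m w x hx
    exact (D.sp_mem m _ _ _ (D.sp_N m w x y hy)).1
  have stepk : ∀ (k : ℕ) w x, x ∈ D.W m w → ((D.N m) ^ k) x ∈ D.W m (w - 2 * k) := by
    intro k
    induction k with
    | zero => intro w x hx; simpa using hx
    | succ k ih =>
      intro w x hx
      rw [pow_succ', Module.End.mul_apply]
      have := step _ _ (ih w x hx)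
      rwa [show w - 2 * (k : ℤ) - 2 = w - 2 * ((k + 1 : ℕ) : ℤ) by push_cast; ring] at this
  obtain ⟨a, ha⟩ := D.W_bot m
  obtain ⟨b, hb⟩ := D.W_top m
  refine ⟨(b - a).toNat, ?_⟩
  ext x
  have hx : x ∈ D.W m b := by rw [hb]; trivial
  have h1 := stepk (b - a).toNat b x hx
  have h2 : ((D.N m) ^ (b - a).toNat) x ∈ D.W m a := by
    apply D.W_mono m _ h1
    have := Int.self_le_toNat (b - a)
    have h3 : (0 : ℤ) ≤ (b - a).toNat := Int.natCast_nonneg _
    omega
  rw [ha, Submodule.mem_bot] at h2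
  simpa using h2

end nilp

section eig

variable {Ω : Type*} [Field Ω] [IsAlgClosed Ω] {V : Type*} [AddCommGroup V] [Module Ω V]

/-- Roots of eigenvalues of powers. -/
lemma exists_eigen_of_pow {F : Module.End Ω V} {P Q : Submodule Ω V} (hP : ∀ x ∈ P, F x ∈ P)
    {γ : Ω} {k : ℕ} (hk : 0 < k) {x : V} (hx : x ∈ P) (hx' : x ∉ Q)
    (h : (F ^ k) x - γ • x ∈ Q) :
    ∃ β : Ω, β ^ k = γ ∧ ∃ y ∈ P, y ∉ Q ∧ F y - β • y ∈ Q := by
  classical
  let p : Polynomial Ω := Polynomial.X ^ k - Polynomial.C γ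
  have hp0 : p ≠ 0 := Polynomial.X_pow_sub_C_ne_zero hk γ
  have hsp : p = (p.roots.map (fun a => Polynomial.X - Polynomial.C a)).prod := by
    have h1 := (IsAlgClosed.splits p).eq_prod_roots
    rw [Polynomial.leadingCoeff_X_pow_sub_C hk, Polynomial.C_1, one_mul] at h1
    exact h1
  have hroots : ∀ β ∈ p.roots, β ^ k = γ := by
    intro β hβ
    have := (Polynomial.mem_roots hp0).1 hβ
    simpa [p, sub_eq_zero] using this
  by_contra hcon
  push Not at hcon
  have key : ∀ s : Multiset Ω, (∀ β ∈ s, β ^ k = γ) → ∀ y ∈ P, y ∉ Q →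
      (Polynomial.aeval F (s.map (fun a => Polynomial.X - Polynomial.C a)).prod) y ∈ P ∧
      (Polynomial.aeval F (s.map (fun a => Polynomial.X - Polynomial.C a)).prod) y ∉ Q := by
    intro s
    induction s using Multiset.induction with
    | empty => intro _ y hy hy'; simpa using ⟨hy, hy'⟩
    | cons a s ih =>
      intro hs y hy hy'
      obtain ⟨h1, h2⟩ := ih (fun β hβ => hs β (Multiset.mem_cons_of_mem hβ)) y hy hy'
      rw [Multiset.map_cons, Multiset.prod_cons, map_mul, Module.End.mul_apply]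
      set z := (Polynomial.aeval F (s.map (fun a => Polynomial.X - Polynomial.C a)).prod) y
      have e1 : (Polynomial.aeval F (Polynomial.X - Polynomial.C a)) z = F z - a • z := by
        simp [Module.algebraMap_end_apply]
      rw [e1]
      exact ⟨P.sub_mem (hP _ h1) (P.smul_mem _ h1),
        hcon a (hs a (Multiset.mem_cons_self a s)) z h1 h2⟩
  have h3 := (key p.roots hroots x hx hx').2
  rw [← hsp] at h3
  apply h3
  simpa [p, Module.algebraMap_end_apply] using h

end eig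

section pure

variable {Ω : Type w} [Field Ω] [CharZero Ω] {q : ℕ}

variable {Γ' : Type} {n : ℕ}

/-- The monodromy filtration is unique. -/
lemma IsMonodromyFiltration.le {V : Type*} [AddCommGroup V] [Module Ω V] {N : Module.End Ω V}
    {M M' : ℤ → Submodule Ω V} (h : IsMonodromyFiltration N M) (h' : IsMonodromyFiltration N M')
    (a : ℤ) : M a ≤ M' a := fun _ hx =>
  h.on.functorial h'.on LinearMap.id (fun _ _ => trivial) one_ne_zero (fun _ _ => by simp) a hx

lemma IsMonodromyFiltration.unique {V : Type*} [AddCommGroup V] [Module Ω V]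
    {N : Module.End Ω V} {M M' : ℤ → Submodule Ω V} (h : IsMonodromyFiltration N M)
    (h' : IsMonodromyFiltration N M') : M = M' :=
  funext fun a => le_antisymm (h.le h' a) (h'.le h a)

/-- Every eigenvalue of the Frobenius on the graded piece `gr_s` of the cohomology `H^j` of `D` is a
Weil number of weight `s + j`. -/
def SemistableModel.PureAt (D : SemistableModel.{w, v} Ω Γ' n q) (j : ℕ) (s : ℤ) : Prop :=
  ∀ (β : Ω) (y : D.V j), y ∈ monFil (D.N j) s → y ∉ monFil (D.N j) (s - 1) →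
    D.actV j D.frob y - β • y ∈ monFil (D.N j) (s - 1) → IsWeilNumber q (s + j) β

lemma SemistableModel.pureAt_of_isMWPure (D : SemistableModel.{w, v} Ω Γ' n q) {j : ℕ}
    (h : IsMWPure q j (D.actV j D.frob) (D.N j)) (s : ℤ) : D.PureAt j s := by
  obtain ⟨M, hM, -, hM'⟩ := h
  have he : M = monFil (D.N j) := hM.unique (isMonodromyFiltration_monFil (D.nilpotent j))
  subst he
  intro β y hy hy' hβ
  exact hM' s β y hy hy' hβ

lemma Degeneration.pureAt_of_le (D : Degeneration.{w, v} Ω Γ' n q)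
    (A : DivisorClasses D.toSpecialFibre) {j : ℕ} {s : ℤ}
    (h : min (j : ℤ) (2 * n - j) ≤ |s| + 2) : D.toSemistableModel.PureAt j s :=
  fun β y hy hy' hβ => D.pure_extreme A j (isMonodromyFiltration_monFil (D.nilpotent j)) s h β y hy
    hy' hβ

lemma Degeneration.pureAt_of_simple [IsAlgClosed Ω] (D : Degeneration.{w, v} Ω Γ' n q) {j : ℕ}
    (h : D.HasSimpleClasses j) (s : ℤ) : D.toSemistableModel.PureAt j s := by
  obtain ⟨A, hA⟩ := h
  have hs := abs_nonneg s
  by_cases h1 : j ≤ n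
  · refine D.pureAt_of_isMWPure (D.mwPure A j h1 ?_).1 s
    intro i w hi hw hiw
    exact hA i w hi hw (by rw [min_eq_left (by omega)]; exact_mod_cast hiw)
  · by_cases h2 : j ≤ 2 * n
    · have h3 := (D.mwPure A (2 * n - j) (by omega) (by
        intro i w hi hw hiw
        exact hA i w hi hw (by rw [min_eq_right (by omega)]; omega))).2
      rw [show 2 * n - (2 * n - j) = j by omega] at h3
      exact D.pureAt_of_isMWPure h3 s
    · exact D.pureAt_of_le A (by
        have := min_le_right (j : ℤ) (2 * n - j)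
        omega)

end pure

section main

variable {K : Type u} [Field K] {Ω : Type w} [Field Ω] [CharZero Ω] {W : Type} [Group W]
  {H : Cohomology.{u, v, w} K Ω W} {q : ℕ} {X : SmVar.{u} K} {m : ℕ} {s : ℤ}

lemma q_ne_zero (hH : H.IsLocal q) (X : SmVar.{u} K) : q ≠ 0 := by
  obtain ⟨e, Γ, D, he, -, -⟩ := hH.alterations X
  intro h
  exact D.toSpecialFibre.q_ne (by rw [h, zero_pow he.ne'])

lemma deg_inv (hH : H.IsLocal q) (g : W) : H.deg g⁻¹ = -H.deg g := by
  have h1 := hH.deg_mul g g⁻¹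
  have h2 := hH.deg_mul 1 1
  rw [one_mul] at h2
  rw [mul_inv_cancel] at h1
  omega

lemma exists_summand [IsAlgClosed Ω] (hH : H.IsLocal q) {Y : SmVar.{u} K} {j : ℕ}
    (h : H.IsGood q s Y j) :
    ∃ (e : ℕ) (Γ : Type) (D : Degeneration.{w, v} Ω Γ Y.dim (q ^ e)),
        H.IsSummandOf q e Y j D.toSemistableModel ∧ D.toSemistableModel.PureAt j s := by
  rcases h with h | ⟨e, Γ, D, he, hD, hI⟩
  · obtain ⟨e, Γ, D, he, ⟨A⟩, hD⟩ := hH.alterations Y
    exact ⟨e, Γ, D, hD j, D.pureAt_of_le A h⟩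
  · exact ⟨e, Γ, D, hI, D.pureAt_of_simple hD s⟩

lemma goodPart_le (hH : H.IsLocal q) : H.goodPart q s X m ≤ (H.H X).gr m := by
  apply sSup_le
  rintro S ⟨Y, j, e, hj, -, f, hf, rfl⟩
  rintro _ ⟨y, hy, rfl⟩
  have h1 := (hH.correspondences.equivariant Y X e f hf).gr _ _ hy
  rw [hj] at h1
  exact h1

lemma mem_goodPart {Y : SmVar.{u} K} {j : ℕ} {e : ℤ} {f : (H.H Y).V →ₗ[Ω] (H.H X).V}
    (hf : f ∈ H.corr Y X e) {y : (H.H Y).V} (hy : y ∈ (H.H Y).gr j) (hj : (j : ℤ) + 2 * e = m)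
    (hb : H.IsGood q s Y j) : f y ∈ H.goodPart q s X m := by
  have h1 : ((H.H Y).gr j).map f ≤ H.goodPart q s X m :=
    le_sSup ⟨Y, j, e, hj, hb, f, hf, rfl⟩
  exact h1 ⟨y, hy, rfl⟩

lemma exists_sum_of_mem {x : (H.H X).V} (hx : x ∈ H.goodPart q s X m) :
    ∃ (t : ℕ) (Y : Fin t → SmVar.{u} K) (j : Fin t → ℕ) (e : Fin t → ℤ)
      (f : ∀ i, (H.H (Y i)).V →ₗ[Ω] (H.H X).V) (y : ∀ i, (H.H (Y i)).V),
        (∀ i, f i ∈ H.corr (Y i) X (e i)) ∧ (∀ i, (j i : ℤ) + 2 * e i = m) ∧
          (∀ i, H.IsGood q s (Y i) (j i)) ∧ x = ∑ i, f i (y i) := by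
  have h0 : H.goodPart q s X m ≤ Submodule.span Ω {z | ∃ (Y : SmVar.{u} K) (j : ℕ) (e : ℤ),
      ∃ f ∈ H.corr Y X e, ∃ y ∈ (H.H Y).gr j, (j : ℤ) + 2 * e = m ∧ H.IsGood q s Y j ∧
        z = f y} := by
    apply sSup_le
    rintro S ⟨Y, j, e, hj, hb, f, hf, rfl⟩
    rintro _ ⟨y, hy, rfl⟩
    exact Submodule.subset_span ⟨Y, j, e, f, hf, y, hy, hj, hb, rfl⟩
  obtain ⟨t, a, z, hz⟩ := Submodule.mem_span_set'.1 (h0 hx)
  have h1 : ∀ i, ∃ (Y : SmVar.{u} K) (j : ℕ) (e : ℤ), ∃ f ∈ H.corr Y X e,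
      ∃ y ∈ (H.H Y).gr j, (j : ℤ) + 2 * e = m ∧ H.IsGood q s Y j ∧ (z i : (H.H X).V) = f y :=
    fun i => (z i).2
  choose Y j e f hf y hy hj hb hzi using h1
  refine ⟨t, Y, j, e, f, fun i => a i • y i, hf, hj, hb, ?_⟩
  rw [← hz]
  apply Finset.sum_congr rfl
  intro i _
  rw [map_smul, hzi]

variable {M : ℤ → Submodule Ω (H.H X).V}

lemma act_fil (hH : H.IsLocal q) (hM : IsMonodromyFiltrationOn ((H.H X).gr m) (H.H X).N M) (g : W)
    {a : ℤ} {x : (H.H X).V} (hx : x ∈ M a) : (H.H X).act g x ∈ M a := by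
  have hq : (q : Ω) ≠ 0 := Nat.cast_ne_zero.2 (q_ne_zero hH X)
  exact hM.functorial hM ((H.H X).act g) (fun y hy => by
      have := (hH.rep X).act_gr g m y hy
      rwa [add_zero] at this)
    (zpow_ne_zero (H.deg g) hq) (fun y _ => (hH.rep X).N_act g y) a hx

lemma act_pow_fil (hH : H.IsLocal q) (hM : IsMonodromyFiltrationOn ((H.H X).gr m) (H.H X).N M)
    (g : W) {a : ℤ} {x : (H.H X).V} (hx : x ∈ M a) (k : ℕ) : ((H.H X).act g ^ k) x ∈ M a := by
  induction k with
  | zero => simpa using hx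
  | succ k ih =>
    rw [pow_succ', Module.End.mul_apply]
    exact act_fil hH hM g ih

lemma eig_pow (hH : H.IsLocal q) (hM : IsMonodromyFiltrationOn ((H.H X).gr m) (H.H X).N M) (g : W)
    {a : ℤ} {x : (H.H X).V} {α : Ω} (h : (H.H X).act g x - α • x ∈ M a) (k : ℕ) :
    ((H.H X).act g ^ k) x - α ^ k • x ∈ M a := by
  induction k with
  | zero => simp
  | succ k ih =>
    have e1 : ((H.H X).act g ^ (k + 1)) x - α ^ (k + 1) • x =
        ((H.H X).act g ^ k) ((H.H X).act g x - α • x) +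
          α • (((H.H X).act g ^ k) x - α ^ k • x) := by
      rw [pow_succ, Module.End.mul_apply, map_sub, map_smul, smul_sub, smul_smul, pow_succ']
      abel
    rw [e1]
    exact add_mem (act_pow_fil hH hM g h k) (Submodule.smul_mem _ _ ih)

/-- Purity for the elements of `W` of degree at least zero. -/
theorem good_pure_pos [IsAlgClosed Ω] (hH : H.IsLocal q)
    (hM : IsMonodromyFiltrationOn ((H.H X).gr m) (H.H X).N M)
    {g : W} (hg : 0 ≤ H.deg g) {α : Ω} {x : (H.H X).V} (hxg : x ∈ H.goodPart q s X m)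
    (hx : x ∈ M s) (hx' : x ∉ M (s - 1)) (hα : (H.H X).act g x - α • x ∈ M (s - 1)) :
    IsWeilNumber q (H.deg g * (s + m)) α := by
  have hq0 : q ≠ 0 := q_ne_zero hH X
  have hq : (q : Ω) ≠ 0 := Nat.cast_ne_zero.2 hq0
  obtain ⟨t, Y, j, e, f, y, hf, hj, hb, hxy⟩ := exists_sum_of_mem hxg
  obtain ⟨σ, hσ, hσ4⟩ := hH.correspondences.semisimple X t Y e f hf
  have hsum : ∑ i, f i (σ i x) = x := by
    have h1 : ∀ i, f i (σ i x) = ∑ l, f i (σ i (f l (y l))) := by
      intro i
      conv_lhs => rw [hxy, map_sum, map_sum]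
    simp_rw [h1]
    rw [Finset.sum_comm]
    conv_rhs => rw [hxy]
    exact Finset.sum_congr rfl (fun l _ => hσ4 l (y l))
  obtain ⟨i, hi⟩ : ∃ i, f i (σ i x) ∉ M (s - 1) := by
    by_contra hcon
    push Not at hcon
    apply hx'
    rw [← hsum]
    exact sum_mem (fun i _ => hcon i)
  have hσmem : ∀ z ∈ (H.H X).gr m, σ i z ∈ (H.H (Y i)).gr (j i) := by
    intro z hz
    have := (hσ i).gr m z hz
    rwa [show (m : ℤ) + 2 * -e i = j i by have := hj i; omega] at this
  have hσx := hσmem x (hM.le _ hx)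
  obtain ⟨e', Γ, D, ⟨hFT, ι, r, c, hc, ⟨hr1, hri⟩, hιN, hr2, hact0⟩, hpure⟩ :=
    exists_summand hH (hb i)
  have hM' := (isMonodromyFiltration_monFil (D.nilpotent (j i))).on
  set M' := monFil (D.N (j i)) with hM'def
  have hfun : ∀ {a : ℤ} {z : (H.H X).V}, z ∈ M a → ι (σ i z) ∈ M' a := by
    intro a z hz
    refine hM.functorial hM' (ι ∘ₗ σ i) (fun _ _ => trivial) hc (fun u hu => ?_) a hz
    change D.N (j i) (ι (σ i u)) = c • ι (σ i ((H.H X).N u))
    rw [hιN, (hσ i).N, one_smul]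
  have hback : ∀ {a : ℤ} {v : D.V (j i)}, v ∈ M' a → f i (r v) ∈ M a := by
    intro a v hv
    refine hM'.functorial hM (f i ∘ₗ r) (fun u _ => ?_) (inv_ne_zero hc)
      (fun u _ => ?_) a hv
    · have h1 := (hH.correspondences.equivariant _ _ _ _ (hf i)).gr _ _ (hr1 u)
      rw [hj i] at h1
      exact h1
    · change (H.H X).N (f i (r u)) = c⁻¹ • f i (r (D.N (j i) u))
      rw [(hH.correspondences.equivariant _ _ _ _ (hf i)).N, one_smul, hr2, map_smul]
  set v := ι (σ i x) with hv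
  have hvM : v ∈ M' s := hfun hx
  have hvM' : v ∉ M' (s - 1) := by
    intro h1
    apply hi
    have := hback h1
    rwa [hv, hri _ hσx] at this
  obtain ⟨T, k, hT, hTk, B, ⟨R, hR, hB⟩, hact⟩ := hact0 g hg
  have hRM : ∀ {a : ℤ} {u : D.V (j i)}, u ∈ M' a → R u ∈ M' a := by
    intro a u hu
    exact hM'.functorial hM' R (fun _ _ => trivial) one_ne_zero (fun z _ => hR z) a hu
  have hFM : ∀ {a : ℤ} {u : D.V (j i)}, u ∈ M' a → D.actV (j i) D.frob u ∈ M' a := by
    intro a u hu
    refine hM'.functorial hM' (D.actV (j i) D.frob) (fun _ _ => trivial)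
      (c := ((q ^ e' : ℕ) : Ω)) ?_ (fun z _ => hFT z) a hu
    exact Nat.cast_ne_zero.2 (pow_ne_zero _ hq0)
  have hFkM : ∀ (l : ℕ) {a : ℤ} {u : D.V (j i)}, u ∈ M' a →
      (D.actV (j i) D.frob ^ l) u ∈ M' a := by
    intro l
    induction l with
    | zero => intro a u hu; simpa using hu
    | succ l ih =>
      intro a u hu
      rw [pow_succ', Module.End.mul_apply]
      exact hFM (ih hu)
  have hactσ : ∀ l : ℕ, ((H.H (Y i)).act g ^ l) (σ i x) =
      (q : Ω) ^ (l * H.deg g * -e i) • σ i (((H.H X).act g ^ l) x) := by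
    intro l
    induction l with
    | zero => simp
    | succ l ih =>
      rw [pow_succ', Module.End.mul_apply, ih, map_smul, (hσ i).act, smul_smul, ← zpow_add₀ hq,
        pow_succ', Module.End.mul_apply]
      congr 2
      push_cast
      ring
  set κ := (q : Ω) ^ (T * H.deg g * -e i) with hκ
  have h1 : B v = ι (((H.H (Y i)).act g ^ T) (σ i x)) := by
    rw [hact (σ i x), one_smul]
  rw [hB, hactσ, map_smul] at h1
  have h2 : ι (σ i (((H.H X).act g ^ T) x)) - α ^ T • v ∈ M' (s - 1) := by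
    have h3 := hfun (eig_pow hH hM g hα T)
    rwa [map_sub, map_smul, map_sub, map_smul] at h3
  have h3 : (D.actV (j i) D.frob ^ k) v - (κ * α ^ T) • v ∈ M' (s - 1) := by
    have h4 : (D.actV (j i) D.frob ^ k) (D.N (j i) (R v)) ∈ M' (s - 1) := by
      apply hFkM
      exact hM'.mono (by omega) (hM'.map _ _ (hRM hvM))
    have h5 : (D.actV (j i) D.frob ^ k) v - (κ * α ^ T) • v =
        κ • (ι (σ i (((H.H X).act g ^ T) x)) - α ^ T • v) -
          (D.actV (j i) D.frob ^ k) (D.N (j i) (R v)) := by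
      rw [smul_sub, ← h1, map_add, smul_smul]
      abel
    rw [h5]
    exact sub_mem (Submodule.smul_mem _ _ h2) h4
  have hkey : IsWeilNumber q (T * H.deg g * (s + j i)) (κ * α ^ T) := by
    rcases Nat.eq_zero_or_pos k with hk | hk
    · subst hk
      have h4 : κ * α ^ T = 1 := by
        by_contra hne
        apply hvM'
        rw [pow_zero, Module.End.one_apply, ← one_smul Ω v, smul_smul, ← sub_smul] at h3
        exact (Submodule.smul_mem_iff _ (sub_ne_zero.2 (by simpa using Ne.symm hne))).1 h3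
      rw [h4, hTk]
      simpa using IsWeilNumber.one (Ω := Ω) q
    · obtain ⟨β, hβ, y', hy', hy'', hy3⟩ := exists_eigen_of_pow
        (F := D.actV (j i) D.frob) (fun u hu => hFM hu) hk hvM hvM' h3
      have h4 := hpure β y' hy' hy'' hy3
      have h5 := (h4.of_pow_base).pow k
      rw [hβ] at h5
      have e1 : (T : ℤ) * H.deg g * (s + j i) = k * (e' * (s + j i)) := by
        rw [hTk]
        ring
      rw [e1]
      exact h5
  have hfin : IsWeilNumber q (T * (H.deg g * (s + m))) (α ^ T) := by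
    have h4 := hkey.twist hq0 (T * H.deg g * e i)
    have h6 : (q : Ω) ^ (T * H.deg g * e i) * (κ * α ^ T) = α ^ T := by
      rw [hκ, ← mul_assoc, ← zpow_add₀ hq,
        show (T : ℤ) * H.deg g * e i + T * H.deg g * -e i = 0 by ring, zpow_zero, one_mul]
    rw [h6] at h4
    have e1 : (T : ℤ) * (H.deg g * (s + m)) = T * H.deg g * (s + j i) + 2 * (T * H.deg g * e i) := by
      rw [← hj i]
      ring
    rw [e1]
    exact h4
  exact IsWeilNumber.of_pow hT hfin

/-- **Purity of `gr^M_s` for the part which is good for `s`.** -/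
theorem good_pure [IsAlgClosed Ω] (hH : H.IsLocal q)
    (hM : IsMonodromyFiltrationOn ((H.H X).gr m) (H.H X).N M)
    (g : W) {α : Ω} {x : (H.H X).V} (hxg : x ∈ H.goodPart q s X m)
    (hx : x ∈ M s) (hx' : x ∉ M (s - 1)) (hα : (H.H X).act g x - α • x ∈ M (s - 1)) :
    IsWeilNumber q (H.deg g * (s + m)) α := by
  rcases le_total 0 (H.deg g) with hg | hg
  · exact good_pure_pos hH hM hg hxg hx hx' hα
  · have hinv : ∀ y : (H.H X).V, (H.H X).act g⁻¹ ((H.H X).act g y) = y := by
      intro y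
      rw [← (hH.rep X).action.2, inv_mul_cancel, (hH.rep X).action.1]
    have hα0 : α ≠ 0 := by
      rintro rfl
      apply hx'
      rw [zero_smul, sub_zero] at hα
      have := act_fil hH hM g⁻¹ hα
      rwa [hinv] at this
    have h1 := act_fil hH hM g⁻¹ hα
    rw [map_sub, map_smul, hinv] at h1
    have h2 : (H.H X).act g⁻¹ x - α⁻¹ • x ∈ M (s - 1) := by
      have h3 := Submodule.smul_mem _ (-α⁻¹) h1
      rw [smul_sub, smul_smul, neg_mul, inv_mul_cancel₀ hα0, neg_smul, neg_smul, one_smul] at h3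
      have e1 : (H.H X).act g⁻¹ x - α⁻¹ • x = -(α⁻¹ • x) - -(H.H X).act g⁻¹ x := by abel
      rw [e1]
      exact h3
    have h3 := good_pure_pos hH hM (g := g⁻¹) (by rw [deg_inv hH]; omega) hxg hx hx' h2
    have h4 := h3.inv
    rw [inv_inv, deg_inv hH] at h4
    rw [show H.deg g * (s + m) = -(-H.deg g * (s + m)) by ring]
    exact h4

/-- The monodromy filtration of `H^m(X)` exists. -/
theorem exists_monodromyFiltration (hH : H.IsLocal q) (X : SmVar.{u} K) (m : ℕ) :
    ∃ M : ℤ → Submodule Ω (H.H X).V, IsMonodromyFiltrationOn ((H.H X).gr m) (H.H X).N M := by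
  obtain ⟨e, Γ, D, he, -, hD⟩ := hH.alterations X
  obtain ⟨-, i, r, c, hc, ⟨-, hri⟩, hiN, -, -⟩ := hD m
  obtain ⟨k, hk⟩ := D.toSemistableModel.nilpotent m
  have hS : ∀ a ∈ (H.H X).gr m, (H.H X).N a ∈ (H.H X).gr m := fun a ha => by
    have := (hH.rep X).N_gr m a ha
    rwa [add_zero] at this
  have hpow : ∀ (l : ℕ) (a : (H.H X).V), a ∈ (H.H X).gr m →
      ((H.H X).N ^ l) a ∈ (H.H X).gr m ∧ (D.N m ^ l) (i a) = c ^ l • i (((H.H X).N ^ l) a) := by
    intro l
    induction l with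
    | zero => intro a ha; simpa using ha
    | succ l ih =>
      intro a ha
      obtain ⟨h1, h2⟩ := ih a ha
      rw [pow_succ', Module.End.mul_apply, pow_succ', Module.End.mul_apply]
      refine ⟨hS _ h1, ?_⟩
      rw [h2, map_smul, hiN, smul_smul, ← pow_succ]
  apply exists_monodromyFiltrationOn hS
  refine ⟨k, fun a ha => ?_⟩
  obtain ⟨h1, h2⟩ := hpow k a ha
  rw [hk, LinearMap.zero_apply] at h2
  have h3 : i (((H.H X).N ^ k) a) = 0 := (smul_eq_zero.1 h2.symm).resolve_left (pow_ne_zero _ hc)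
  rw [← hri _ h1, h3, map_zero]

/-- If `H^m(X)` itself is good, the good part is everything. -/
theorem goodPart_eq_of_good (hH : H.IsLocal q) (h : H.IsGood q s X m) :
    H.goodPart q s X m = (H.H X).gr m := by
  apply le_antisymm (goodPart_le hH)
  intro x hx
  exact mem_goodPart (hH.correspondences.id X) hx (by ring) h

/-- If the diagonal factors, then the good part is everything. -/
theorem goodPart_eq_of_factors (hH : H.IsLocal q) (h : H.DiagonalFactors q s X m) :
    H.goodPart q s X m = (H.H X).gr m := by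
  apply le_antisymm (goodPart_le hH)
  intro x hx
  obtain ⟨t, Y, c, h, hb, hsum⟩ := h
  have hx1 : x = ∑ l, h l x := by
    have h1 := LinearMap.congr_fun hsum x
    rw [Module.End.one_apply, LinearMap.sum_apply] at h1
    exact h1
  rw [hx1]
  apply sum_mem
  intro l _
  obtain ⟨⟨f, hf, g, hg, hfg⟩, hb⟩ := hb l
  rw [hfg, LinearMap.comp_apply]
  have h3 := (hH.correspondences.equivariant _ _ _ _ hf).gr _ _ hx
  rw [show (m : ℤ) + 2 * -c l = m - 2 * c l by ring] at h3
  by_cases hneg : (m : ℤ) - 2 * c l < 0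
  · rw [(hH.rep (Y l)).gr_neg _ hneg, Submodule.mem_bot] at h3
    rw [h3, map_zero]
    exact zero_mem _
  · obtain ⟨j, hj⟩ := Int.eq_ofNat_of_zero_le (not_lt.1 hneg)
    rw [hj] at h3
    exact mem_goodPart hg h3 (by omega) (hb j hj.symm)

end main

end Pool.Agent.Y143
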